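import Mathlib

set_option autoImplicit false

namespace Pool.Agent.H16Z.FC

variable {R : Type*} [CommRing R]

/-- The Frobenius power `I^[q]`: the ideal generated by the `q`-th powers of the elements of `I`. -/
def frobPow (q : ℕ) (I : Ideal R) : Ideal R := Ideal.span ((fun a => a ^ q) '' (I : Set R))

/-- `I` is Frobenius closed (in characteristic `p`): if `r ^ q ∈ I^[q]` for some `q = p ^ e`,
then `r ∈ I`. -/
def FrobClosed (p : ℕ) (I : Ideal R) : Prop :=
  ∀ r : R, (∃ e : ℕ, r ^ (p ^ e) ∈ frobPow (p ^ e) I) → r ∈ I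

/-- `x₁, …, x_d` is a system of parameters of the local ring `R`: `d = dim R` and the ideal
generated by the `x_i` has radical the maximal ideal. -/
def IsSOP [IsLocalRing R] {d : ℕ} (x : Fin d → R) : Prop :=
  ringKrullDim R = (d : WithBot ℕ∞) ∧
    (Ideal.span (Set.range x)).radical = IsLocalRing.maximalIdeal R

/-- `R` is Buchsbaum: every system of parameters is a weak sequence, that is
`(x₁, …, x_{i-1}) : x_i = (x₁, …, x_{i-1}) : 𝔪` for every `i`. -/
def IsBuchsbaum (R : Type*) [CommRing R] [IsLocalRing R] : Prop :=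
  ∀ (d : ℕ) (x : Fin d → R), IsSOP x → ∀ i : Fin d,
    Submodule.colon (Ideal.span (x '' {j | j < i})) {x i} =
      Submodule.colon (Ideal.span (x '' {j | j < i})) (IsLocalRing.maximalIdeal R : Set R)

end Pool.Agent.H16Z.FC
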