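import Mathlib

/-!
An inseparable finite extension `L / k` without purely inseparable elements.
-/

set_option autoImplicit false

open MvPolynomial

namespace Pool.Agent.H16Z.FC

theorem exists_fields (p : ℕ) [hp : Fact p.Prime] :
    ∃ (L : Type) (_ : Field L) (_ : CharP L p) (k K : Subfield L), k ≤ K ∧ Module.Finite k L ∧
      (∀ a : L, a ^ p ∈ k → a ∈ k) ∧ ∃ θ : L, θ ∉ K ∧ θ ^ p ∈ K := by
  classical
  let A := MvPolynomial (Fin 2) (ZMod p)
  let M := FractionRing A
  have hinj : Function.Injective (algebraMap A M) := IsFractionRing.injective A M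
  haveI : CharP M p := charP_of_injective_algebraMap hinj p
  let s : A ≃ₐ[ZMod p] A := renameEquiv (ZMod p) (Equiv.swap 0 1)
  let σ : M ≃+* M := IsFractionRing.ringEquivOfRingEquiv s.toRingEquiv
  have hσ : ∀ a : A, σ (algebraMap A M a) = algebraMap A M (s a) := fun a =>
    IsFractionRing.ringEquivOfRingEquiv_algebraMap _ a
  let D : Derivation (ZMod p) A A := pderiv 1
  have hD : ∀ f : A, D (f ^ p) = 0 := by
    intro f
    rw [Derivation.leibniz_pow, nsmul_eq_mul, CharP.cast_eq_zero, zero_mul]
  let L : Subfield M :=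
    { carrier := {z | ∃ f g : A, g ≠ 0 ∧ D f = 0 ∧ D g = 0 ∧
        z = algebraMap A M f / algebraMap A M g}
      mul_mem' := by
        rintro _ _ ⟨f, g, hg, h1, h2, rfl⟩ ⟨f', g', hg', h1', h2', rfl⟩
        refine ⟨f * f', g * g', mul_ne_zero hg hg', by simp [h1, h1'], by simp [h2, h2'], ?_⟩
        rw [map_mul, map_mul, div_mul_div_comm]
      one_mem' := ⟨1, 1, one_ne_zero, by simp, by simp, by simp⟩
      add_mem' := by
        rintro _ _ ⟨f, g, hg, h1, h2, rfl⟩ ⟨f', g', hg', h1', h2', rfl⟩
        refine ⟨f * g' + g * f', g * g', mul_ne_zero hg hg', by simp [h1, h1', h2, h2'],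
          by simp [h2, h2'], ?_⟩
        rw [map_add, map_mul, map_mul, map_mul,
          div_add_div _ _ ((map_ne_zero_iff _ hinj).2 hg) ((map_ne_zero_iff _ hinj).2 hg')]
      zero_mem' := ⟨0, 1, one_ne_zero, by simp, by simp, by simp⟩
      neg_mem' := by
        rintro _ ⟨f, g, hg, h1, h2, rfl⟩
        exact ⟨-f, g, hg, by simp [h1], h2, by rw [map_neg, neg_div]⟩
      inv_mem' := by
        rintro _ ⟨f, g, hg, h1, h2, rfl⟩
        by_cases hf : f = 0
        · exact ⟨0, 1, one_ne_zero, by simp, by simp, by simp [hf]⟩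
        · exact ⟨g, f, hf, h2, h1, by rw [inv_div]⟩ }
  have hpow : ∀ z : M, z ^ p ∈ L := by
    intro z
    obtain ⟨f, g, hg, rfl⟩ := IsFractionRing.div_surjective (A := A) z
    exact ⟨f ^ p, g ^ p, pow_ne_zero _ (nonZeroDivisors.ne_zero hg), hD f, hD g,
      by rw [map_pow, map_pow, div_pow]⟩
  let a : M := algebraMap A M (X 0)
  let c : M := algebraMap A M (X 1)
  have ha : a ∈ L := ⟨X 0, 1, one_ne_zero, pderiv_X_of_ne (by decide), by simp, by simp [a]⟩
  have hc : c ∉ L := by
    rintro ⟨f, g, hg, h1, h2, h⟩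
    rw [eq_div_iff ((map_ne_zero_iff _ hinj).2 hg), ← map_mul] at h
    have h3 := congrArg D (hinj h)
    have h4 : D (X 1) = 1 := pderiv_X_self 1
    rw [h1, Derivation.leibniz, h2, h4, smul_zero, zero_add, smul_eq_mul, mul_one] at h3
    exact hg h3
  have hσa : σ a = c := by
    rw [hσ]
    change algebraMap A M (rename (Equiv.swap (0 : Fin 2) 1) (X 0)) = _
    rw [rename_X, Equiv.swap_apply_left]
  have hσc : σ c = a := by
    rw [hσ]
    change algebraMap A M (rename (Equiv.swap (0 : Fin 2) 1) (X 1)) = _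
    rw [rename_X, Equiv.swap_apply_right]
  let F : Subfield M := RingHom.eqLocusField σ.toRingHom (RingHom.id M)
  have hF : ∀ z : M, z ∈ F ↔ σ z = z := fun z => Iff.rfl
  let k0 : Subfield M := L ⊓ F
  let K0 : Subfield M := L ⊓ L.comap σ.toRingHom
  have hfin : Module.Finite k0 M := by
    have hu : a ^ p + c ^ p ∈ k0 :=
      ⟨L.add_mem (hpow a) (hpow c), (hF _).2 (by rw [map_add, map_pow, map_pow, hσa, hσc, add_comm])⟩
    have hv : a ^ p * c ^ p ∈ k0 :=
      ⟨L.mul_mem (hpow a) (hpow c), (hF _).2 (by rw [map_mul, map_pow, map_pow, hσa, hσc, mul_comm])⟩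
    have hint : ∀ z : M, (z = a ∨ z = c) → IsIntegral k0 z := by
      intro z hz
      refine IsIntegral.of_pow hp.out.pos ?_
      refine ⟨Polynomial.X ^ 2 - Polynomial.C ⟨_, hu⟩ * Polynomial.X + Polynomial.C ⟨_, hv⟩,
        by monicity!, ?_⟩
      simp only [Polynomial.eval₂_add, Polynomial.eval₂_sub, Polynomial.eval₂_mul,
        Polynomial.eval₂_pow, Polynomial.eval₂_X, Polynomial.eval₂_C]
      change (z ^ p) ^ 2 - (a ^ p + c ^ p) * z ^ p + a ^ p * c ^ p = 0
      rcases hz with rfl | rfl <;> ring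
    have hfd : FiniteDimensional k0 (IntermediateField.adjoin k0 ({a, c} : Set M)) :=
      IntermediateField.finiteDimensional_adjoin (fun z hz => hint z (by simpa using hz))
    have htop : IntermediateField.adjoin k0 ({a, c} : Set M) = ⊤ := by
      have hA : ∀ f : A, algebraMap A M f ∈ IntermediateField.adjoin k0 ({a, c} : Set M) := by
        intro f
        induction f using MvPolynomial.induction_on with
        | C r =>
          obtain ⟨n, rfl⟩ := ZMod.natCast_zmod_surjective r
          rw [map_natCast, map_natCast]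
          exact natCast_mem _ n
        | add f g hf hg => rw [map_add]; exact add_mem hf hg
        | mul_X f i hf =>
          rw [map_mul]
          refine mul_mem hf (IntermediateField.subset_adjoin _ _ ?_)
          fin_cases i
          · exact Or.inl rfl
          · exact Or.inr rfl
      rw [eq_top_iff]
      intro z _
      obtain ⟨f, g, hg, rfl⟩ := IsFractionRing.div_surjective (A := A) z
      exact div_mem (hA f) (hA g)
    rw [htop] at hfd
    exact Module.Finite.equiv (IntermediateField.topEquiv (F := k0) (E := M)).toLinearEquiv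
  refine ⟨L, inferInstance, inferInstance, k0.comap L.subtype, K0.comap L.subtype, ?_, ?_, ?_,
    ⟨a, ha⟩, ?_, ?_⟩
  · rintro z ⟨h1, h2⟩
    refine ⟨h1, ?_⟩
    change σ z.1 ∈ L
    have h3 : σ z.1 = z.1 := (hF _).1 h2
    rw [h3]; exact z.2
  · let e : k0.comap L.subtype →+* k0 :=
      { toFun := fun z => ⟨z.1.1, z.2⟩
        map_one' := rfl
        map_mul' := fun _ _ => rfl
        map_zero' := rfl
        map_add' := fun _ _ => rfl }
    have he : Function.Surjective e := fun z => ⟨⟨⟨z.1, z.2.1⟩, z.2⟩, rfl⟩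
    have h1 : ((algebraMap k0 M).comp e).Finite :=
      (RingHom.finite_algebraMap.2 hfin).comp (RingHom.Finite.of_surjective e he)
    letI := ((algebraMap k0 M).comp e).toAlgebra
    have h2 : Module.Finite (k0.comap L.subtype) M := h1
    let ι : L →ₗ[k0.comap L.subtype] M :=
      { toFun := fun r => r.1
        map_add' := fun _ _ => rfl
        map_smul' := fun _ _ => rfl }
    exact Module.Finite.of_injective ι Subtype.val_injective
  · rintro z ⟨-, h2⟩
    refine ⟨z.2, (hF _).2 ?_⟩
    have h3 : σ (z.1 ^ p) = z.1 ^ p := (hF _).1 h2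
    rw [map_pow] at h3
    exact frobenius_inj M p h3
  · rintro ⟨-, h⟩
    apply hc
    rw [← hσa]; exact h
  · refine ⟨hpow a, ?_⟩
    change σ (a ^ p) ∈ L
    rw [map_pow]; exact hpow _

end Pool.Agent.H16Z.FC
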