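import Pool.Agent.H16Z.FC.Main
import Pool.Agent.H16Z.FC.Fields

set_option autoImplicit false

open PowerSeries

namespace Pool.Agent.H16Z.FC

theorem final (p : ℕ) (hp : p.Prime) :
    ∃ (R : Type) (_ : CommRing R) (_ : IsDomain R) (_ : IsLocalRing R) (_ : IsNoetherianRing R)
      (_ : CharP R p), IsBuchsbaum R ∧ ∃ x : Fin 2 → R, IsSOP x ∧
        FrobClosed p (Ideal.span (Set.range x)) ∧
        ¬ FrobClosed p (frobPow p (Ideal.span (Set.range x))) := by
  haveI := Fact.mk hp
  obtain ⟨L, _, _, k, K, hkK, hfin, H2, θ, hθ, H1⟩ := exists_fields p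
  haveI := loc hkK
  haveI : CharP L⟦X⟧ p := charP_of_injective_ringHom (f := C (R := L)) C_injective p
  haveI : CharP L⟦X⟧⟦X⟧ p := charP_of_injective_ringHom (f := C (R := L⟦X⟧)) C_injective p
  haveI hc : CharP (Rr k K) p := inferInstance
  haveI : ExpChar (Rr k K) p := ExpChar.prime hp
  exact ⟨Rr k K, inferInstance, inferInstance, inferInstance, noeth hkK, hc, buchsbaum hkK,
    xy k K, ⟨dim_eq hkK, radical_I hkK⟩, closed_I hkK p hp H2, not_closed_pow p hp θ hθ H1⟩

end Pool.Agent.H16Z.FC
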