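import Pool.Agent.H16Z.FC.Ring
import Pool.Agent.H16Z.FC.Defs

set_option autoImplicit false

open PowerSeries

namespace Pool.Agent.H16Z.FC

theorem frobPow_eq_map {R : Type*} [CommRing R] (p e : ℕ) [ExpChar R p] (I : Ideal R) :
    frobPow (p ^ e) I = Ideal.map (iterateFrobenius R p e) I := rfl

theorem height_le_of_radical {R : Type*} [CommRing R] [IsLocalRing R] [IsNoetherianRing R]
    (s : Finset R) (h : (Ideal.span (s : Set R)).radical = IsLocalRing.maximalIdeal R) :
    ringKrullDim R ≤ (s.card : ℕ) := by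
  have : IsLocalRing.maximalIdeal R ∈ (Ideal.span (s : Set R)).minimalPrimes := by
    rw [← Ideal.radical_minimalPrimes, h, Ideal.minimalPrimes_eq_subsingleton_self]
    rfl
  have h2 := Ideal.height_le_card_of_mem_minimalPrimes_span_finset this
  rw [← IsLocalRing.maximalIdeal_height_eq_ringKrullDim]
  exact_mod_cast h2

variable {L : Type} [Field L] {k K : Subfield L}

theorem radical_I (hkK : k ≤ K) [Module.Finite k L] [IsLocalRing (Rr k K)] :
    (Ideal.span (Set.range (xy k K))).radical = IsLocalRing.maximalIdeal (Rr k K) := by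
  apply le_antisymm
  · rw [Ideal.IsPrime.radical_le_iff inferInstance, Ideal.span_le, range_xy]
    rintro _ (rfl | rfl)
    · rw [SetLike.mem_coe, mem_max hkK]; simp
    · rw [SetLike.mem_coe, mem_max hkK]; simp
  · intro f hf
    rw [mem_max hkK] at hf
    refine ⟨2, mem_I hkK _ ?_ ?_ ?_⟩
    · change constantCoeff (constantCoeff (f.1 ^ 2)) = 0
      rw [map_pow, map_pow, hf]; simp
    · change constantCoeff (coeff 1 (f.1 ^ 2)) ∈ k
      rw [sq, coeff_one_mul, map_add, map_mul, hf]; simp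
    · change coeff 1 (constantCoeff (f.1 ^ 2)) ∈ k
      rw [sq, map_mul, coeff_one_mul, hf]; simp

theorem dim_eq (hkK : k ≤ K) [Module.Finite k L] : ringKrullDim (Rr k K) = (2 : ℕ) := by
  classical
  haveI := loc hkK
  haveI := noeth hkK
  apply le_antisymm
  · have := height_le_of_radical (R := Rr k K) {⟨X, X_mem⟩, ⟨C X, Y_mem⟩}
      (by rw [← radical_I hkK, range_xy]; simp)
    refine this.trans ?_
    exact_mod_cast Finset.card_le_two
  · let P : Ideal (Rr k K) := RingHom.ker ((constantCoeff (R := L⟦X⟧)).comp (Rr k K).subtype)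
    haveI : P.IsPrime := RingHom.ker_isPrime _
    have h1 : (⊥ : Ideal (Rr k K)) < P := by
      refine bot_lt_iff_ne_bot.2 fun h => ?_
      have : (⟨X, X_mem⟩ : Rr k K) ∈ P := by simp [P, RingHom.mem_ker]
      rw [h, Ideal.mem_bot] at this
      exact X_ne_zero (congrArg Subtype.val this)
    have h2 : P < IsLocalRing.maximalIdeal (Rr k K) := by
      refine lt_of_le_of_ne (IsLocalRing.le_maximalIdeal Ideal.IsPrime.ne_top') fun h => ?_
      have : (⟨C X, Y_mem⟩ : Rr k K) ∈ P := by rw [h, mem_max hkK]; simp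
      simp [P, RingHom.mem_ker, X_ne_zero] at this
    have a1 := Ideal.height_add_one_le_of_lt_of_isPrime h1
    have a2 := Ideal.height_add_one_le_of_lt_of_isPrime h2
    rw [← IsLocalRing.maximalIdeal_height_eq_ringKrullDim]
    have a3 : (1 : ℕ∞) ≤ P.height := le_trans le_add_self a1
    have a4 : (2 : ℕ∞) ≤ (IsLocalRing.maximalIdeal (Rr k K)).height :=
      le_trans (by rw [← one_add_one_eq_two]; gcongr) a2
    exact WithBot.coe_le_coe.2 a4

theorem map_frob_I (p e : ℕ) [ExpChar (Rr k K) p] :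
    Ideal.map (iterateFrobenius (Rr k K) p e) (Ideal.span (Set.range (xy k K))) =
      Ideal.span {(⟨X, X_mem⟩ : Rr k K) ^ (p ^ e), (⟨C X, Y_mem⟩ : Rr k K) ^ (p ^ e)} := by
  rw [Ideal.map_span, range_xy, Set.image_pair]; rfl

theorem coeff_pow_of_zero {A : Type*} [CommRing A] (f : A⟦X⟧) (hf : constantCoeff f = 0) (q : ℕ) :
    coeff q (f ^ q) = (coeff 1 f) ^ q := by
  obtain ⟨g, rfl⟩ := X_dvd_iff.2 hf
  rw [mul_pow, coeff_X_pow_mul', if_pos le_rfl, Nat.sub_self, coeff_zero_eq_constantCoeff_apply,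
    map_pow, coeff_succ_X_mul, coeff_zero_eq_constantCoeff_apply]

theorem closed_I (hkK : k ≤ K) (p : ℕ) (hp : p.Prime) [ExpChar (Rr k K) p]
    (H2 : ∀ a : L, a ^ p ∈ k → a ∈ k) : FrobClosed p (Ideal.span (Set.range (xy k K))) := by
  have H2' : ∀ (e : ℕ) (a : L), a ^ (p ^ e) ∈ k → a ∈ k := by
    intro e
    induction e with
    | zero => intro a ha; simpa using ha
    | succ e ih => intro a ha; rw [pow_succ, pow_mul] at ha; exact ih a (H2 _ ha)
  rintro f ⟨e, he⟩
  rw [frobPow_eq_map, map_frob_I, Ideal.mem_span_pair] at he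
  obtain ⟨a, b, hab⟩ := he
  have hq : p ^ e ≠ 0 := pow_ne_zero _ hp.ne_zero
  have h : a.1 * X ^ (p ^ e) + b.1 * (C X) ^ (p ^ e) = f.1 ^ (p ^ e) := congrArg Subtype.val hab
  have H3 := H2' e
  generalize p ^ e = q at h hq H3
  have hx := congrArg (PowerSeries.map (constantCoeff (R := L))) h
  have hy := congrArg (constantCoeff (R := L⟦X⟧)) h
  simp only [map_add, map_mul, map_pow, map_X, map_C, constantCoeff_X, constantCoeff_C, map_zero,
    zero_pow hq, mul_zero, add_zero, zero_add] at hx hy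
  have h0 : constantCoeff (constantCoeff f.1) = 0 := by
    have := congrArg (constantCoeff (R := L)) hy
    simp only [map_mul, map_pow, constantCoeff_X, zero_pow hq, mul_zero] at this
    exact pow_eq_zero_iff hq |>.1 this.symm
  refine mem_I hkK f h0 (H3 _ ?_) (H3 _ ?_)
  · have := congrArg (coeff q) hx
    rw [coeff_pow_of_zero _ (by
      rw [← coeff_zero_eq_constantCoeff_apply, coeff_map, coeff_zero_eq_constantCoeff_apply]
      exact h0), coeff_map, coeff_mul_X_pow', if_pos le_rfl, Nat.sub_self, coeff_map,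
      coeff_zero_eq_constantCoeff_apply] at this
    rw [← this]; exact a.2.2
  · have := congrArg (coeff q) hy
    rw [coeff_pow_of_zero _ h0, coeff_mul_X_pow', if_pos le_rfl, Nat.sub_self,
      coeff_zero_eq_constantCoeff_apply] at this
    rw [← this]; exact b.2.2

theorem not_closed_pow (p : ℕ) (hp : p.Prime) [ExpChar (Rr k K) p] (θ : L) (hθ : θ ∉ K)
    (H1 : θ ^ p ∈ K) : ¬ FrobClosed p (frobPow p (Ideal.span (Set.range (xy k K)))) := by
  intro hc
  have hp2 := hp.two_le
  have e1 : frobPow p (Ideal.span (Set.range (xy k K))) =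
      Ideal.span {(⟨X, X_mem⟩ : Rr k K) ^ p, (⟨C X, Y_mem⟩ : Rr k K) ^ p} := by
    have := (frobPow_eq_map p 1 (Ideal.span (Set.range (xy k K)))).trans (map_frob_I p 1)
    rwa [pow_one] at this
  have mr : (X ^ p * C (C θ * X) : L⟦X⟧⟦X⟧) ∈ Rr k K := by
    obtain ⟨n, rfl⟩ : ∃ n, p = n + 1 := ⟨p - 1, by omega⟩
    rw [pow_succ', mul_assoc]; exact X_mul_mem _
  have ms : (C (C θ * X) : L⟦X⟧⟦X⟧) ^ p ∈ Rr k K := by
    refine ⟨fun n => ?_, ?_⟩
    · rw [map_pow, constantCoeff_C, mul_pow, ← map_pow, coeff_C_mul, coeff_X_pow]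
      split_ifs
      · simpa using H1
      · simp
    · simp [hp.ne_zero]
  have := hc ⟨_, mr⟩ ⟨1, by
    rw [frobPow_eq_map, e1, Ideal.map_span, Set.image_pair, Ideal.mem_span_pair]
    refine ⟨⟨_, ms⟩, 0, Subtype.ext ?_⟩
    change (C (C θ * X) : L⟦X⟧⟦X⟧) ^ p * (X ^ p) ^ (p ^ 1) + 0 * _ = (X ^ p * C (C θ * X)) ^ (p ^ 1)
    rw [pow_one, mul_pow]; ring⟩
  rw [e1, Ideal.mem_span_pair] at this
  obtain ⟨a, b, hab⟩ := this
  have h : a.1 * X ^ p + b.1 * (C X) ^ p = X ^ p * C (C θ * X) := congrArg Subtype.val hab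
  have h2 := congrArg (fun g => coeff 1 (coeff p g)) h
  simp only [map_add] at h2
  rw [coeff_mul_X_pow', if_pos le_rfl, Nat.sub_self, ← map_pow, coeff_mul_C, coeff_mul_X_pow',
    if_neg (by omega), coeff_X_pow_mul', if_pos le_rfl, Nat.sub_self, coeff_zero_C,
    coeff_C_mul, coeff_one_X, add_zero, mul_one, coeff_zero_eq_constantCoeff_apply] at h2
  exact hθ (h2 ▸ a.2.1 1)

theorem buchsbaum (hkK : k ≤ K) [Module.Finite k L] [IsLocalRing (Rr k K)] :
    IsBuchsbaum (Rr k K) := by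
  classical
  haveI := noeth hkK
  intro d x ⟨hd, hx⟩ i
  have hd2 : d = 2 := by
    rw [dim_eq hkK] at hd
    exact_mod_cast hd.symm
  subst hd2
  have hxi : x i ∈ IsLocalRing.maximalIdeal (Rr k K) := by
    rw [← hx]; exact Ideal.le_radical (Ideal.subset_span ⟨i, rfl⟩)
  have hr : Set.range x = {x 0, x 1} := by
    ext z; simp [Fin.exists_fin_two, eq_comm]
  have hx0 : x 0 ≠ 0 := by
    intro h0
    have := height_le_of_radical (R := Rr k K) {x 1} (by
      rw [← hx, hr, h0, Ideal.span_insert_zero]; simp)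
    rw [dim_eq hkK, Finset.card_singleton] at this
    exact absurd this (by decide)
  apply le_antisymm
  swap
  · intro r hr
    rw [Submodule.mem_colon] at hr ⊢
    rintro s rfl
    exact hr _ hxi
  intro r hr'
  rw [Submodule.mem_colon_singleton, smul_eq_mul] at hr'
  rw [Submodule.mem_colon]
  intro μ hμ
  rw [smul_eq_mul]
  fin_cases i
  · have : x '' {j | j < (0 : Fin 2)} = ∅ := by simp
    simp only [Fin.zero_eta] at hr' ⊢
    rw [this, Ideal.span_empty, Ideal.mem_bot] at hr' ⊢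
    rw [(mul_eq_zero.1 hr').resolve_right hx0, zero_mul]
  · have : x '' {j | j < (1 : Fin 2)} = {x 0} := by
      have : {j : Fin 2 | j < 1} = {0} := by ext j; fin_cases j <;> simp
      rw [this, Set.image_singleton]
    simp only [Fin.mk_one] at hr' ⊢
    rw [this, Ideal.mem_span_singleton'] at hr' ⊢
    obtain ⟨s, hs⟩ := hr'
    have hX : (⟨X, X_mem⟩ : Rr k K) ∈ (Ideal.span (Set.range x)).radical := by
      rw [hx, mem_max hkK]; simp
    have hY : (⟨C X, Y_mem⟩ : Rr k K) ∈ (Ideal.span (Set.range x)).radical := by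
      rw [hx, mem_max hkK]; simp
    obtain ⟨N, hN⟩ := hX
    obtain ⟨M, hM⟩ := hY
    rw [hr, Ideal.mem_span_pair] at hN hM
    obtain ⟨a, b, hab⟩ := hN
    obtain ⟨c, d, hcd⟩ := hM
    set α := a * r + b * s with hα
    set β := c * r + d * s with hβ
    have e1 : x 0 * α = (⟨X, X_mem⟩ : Rr k K) ^ N * r := by
      rw [← hab, hα]; linear_combination b * hs
    have e2 : x 0 * β = (⟨C X, Y_mem⟩ : Rr k K) ^ M * r := by
      rw [← hcd, hβ]; linear_combination d * hs
    have e3 : (⟨C X, Y_mem⟩ : Rr k K) ^ M * α = (⟨X, X_mem⟩ : Rr k K) ^ N * β := by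
      apply mul_left_cancel₀ hx0
      linear_combination (⟨C X, Y_mem⟩ : Rr k K) ^ M * e1 - (⟨X, X_mem⟩ : Rr k K) ^ N * e2
    have f1 : (x 0).1 * α.1 = X ^ N * r.1 := congrArg Subtype.val e1
    have f3 : (C X) ^ M * α.1 = X ^ N * β.1 := congrArg Subtype.val e3
    obtain ⟨φ, hφ⟩ : (X : L⟦X⟧⟦X⟧) ^ N ∣ α.1 := by
      rw [X_pow_dvd_iff]
      intro m hm
      have := congrArg (coeff m) f3
      rw [← map_pow, coeff_C_mul, coeff_X_pow_mul', if_neg (by omega)] at this
      exact (mul_eq_zero.1 this).resolve_left (pow_ne_zero _ X_ne_zero)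
    have hXN : (X : L⟦X⟧⟦X⟧) ^ N ≠ 0 := pow_ne_zero _ X_ne_zero
    have g1 : r.1 = (x 0).1 * φ := by
      apply mul_left_cancel₀ hXN
      rw [← f1, hφ]; ring
    have g2 : β.1 = (C X) ^ M * φ := by
      apply mul_left_cancel₀ hXN
      rw [← f3, hφ]; ring
    have g3 : ∀ n, coeff n (constantCoeff φ) ∈ K := by
      intro n
      have := β.2.1 (n + M)
      rwa [g2, map_mul, map_pow, constantCoeff_C, coeff_X_pow_mul] at this
    have g4 : μ.1 * φ ∈ Rr k K := by
      refine ⟨fun n => ?_, ?_⟩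
      · rw [map_mul, coeff_mul]
        exact K.sum_mem fun p _ => K.mul_mem (μ.2.1 _) (g3 _)
      · rw [map_mul, map_mul, (mem_max hkK μ).1 hμ, zero_mul]; exact k.zero_mem
    refine ⟨⟨_, g4⟩, Subtype.ext ?_⟩
    change μ.1 * φ * (x 0).1 = r.1 * μ.1
    rw [g1]; ring

end Pool.Agent.H16Z.FC
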