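import Mathlib

/-!
The ring `R = {f ∈ L[[y]][[x]] : f(0,y) ∈ K[[y]], f(0,0) ∈ k}` for fields `k ≤ K ≤ L`.
-/

set_option autoImplicit false

open PowerSeries

namespace Pool.Agent.H16Z.FC

theorem finite_map {A B : Type*} [CommRing A] [CommRing B] (f : A →+* B) (hf : f.Finite) :
    (PowerSeries.map f).Finite := by
  classical
  letI := f.toAlgebra
  have hf' : Module.Finite A B := hf
  obtain ⟨n, b, hb⟩ := Module.Finite.exists_fin (R := A) (M := B)
  letI := (PowerSeries.map f).toAlgebra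
  refine ⟨⟨Finset.univ.image (fun i => (C (b i) : B⟦X⟧)), ?_⟩⟩
  rw [eq_top_iff]
  intro g _
  have h : ∀ m, ∃ c : Fin n → A, ∑ i, c i • b i = coeff m g := by
    intro m
    have : coeff m g ∈ Submodule.span A (Set.range b) := by rw [hb]; trivial
    exact (Submodule.mem_span_range_iff_exists_fun A).1 this
  choose c hc using h
  have hg : g = ∑ i, (PowerSeries.mk (fun m => c m i) : A⟦X⟧) • (C (b i) : B⟦X⟧) := by
    ext m
    rw [map_sum, ← hc m]
    refine Finset.sum_congr rfl fun i _ => ?_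
    change _ = coeff m (PowerSeries.map f _ * _)
    rw [coeff_mul_C, coeff_map, coeff_mk]
    rfl
  rw [hg]
  refine Submodule.sum_mem _ fun i _ => Submodule.smul_mem _ _ (Submodule.subset_span ?_)
  simp

variable {L : Type} [Field L]

/-- the ring -/
def Rr (k K : Subfield L) : Subring L⟦X⟧⟦X⟧ where
  carrier := {f | (∀ n, coeff n (constantCoeff f) ∈ K) ∧ constantCoeff (constantCoeff f) ∈ k}
  mul_mem' := by
    rintro f g ⟨hf, hf0⟩ ⟨hg, hg0⟩
    refine ⟨fun n => ?_, ?_⟩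
    · rw [map_mul, coeff_mul]
      exact K.sum_mem fun p _ => K.mul_mem (hf _) (hg _)
    · rw [map_mul, map_mul]; exact k.mul_mem hf0 hg0
  one_mem' := by
    refine ⟨fun n => ?_, ?_⟩
    · rw [map_one, coeff_one]; split_ifs
      · exact K.one_mem
      · exact K.zero_mem
    · rw [map_one, map_one]; exact k.one_mem
  add_mem' := by
    rintro f g ⟨hf, hf0⟩ ⟨hg, hg0⟩
    refine ⟨fun n => ?_, ?_⟩
    · rw [map_add, map_add]; exact K.add_mem (hf _) (hg _)
    · rw [map_add, map_add]; exact k.add_mem hf0 hg0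
  zero_mem' := by
    refine ⟨fun n => ?_, ?_⟩
    · rw [map_zero, map_zero]; exact K.zero_mem
    · rw [map_zero, map_zero]; exact k.zero_mem
  neg_mem' := by
    rintro f ⟨hf, hf0⟩
    refine ⟨fun n => ?_, ?_⟩
    · rw [map_neg, map_neg]; exact K.neg_mem (hf _)
    · rw [map_neg, map_neg]; exact k.neg_mem hf0

variable {k K : Subfield L}

theorem mem_Rr {f : L⟦X⟧⟦X⟧} : f ∈ Rr k K ↔
    (∀ n, coeff n (constantCoeff f) ∈ K) ∧ constantCoeff (constantCoeff f) ∈ k := Iff.rfl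

theorem X_mul_mem (g : L⟦X⟧⟦X⟧) : X * g ∈ Rr k K := by
  refine ⟨fun n => ?_, ?_⟩
  · simp
  · simp

theorem X_mem : (X : L⟦X⟧⟦X⟧) ∈ Rr k K := by
  simpa using X_mul_mem (k := k) (K := K) (1 : L⟦X⟧⟦X⟧)

theorem Y_mem : (C X : L⟦X⟧⟦X⟧) ∈ Rr k K := by
  refine ⟨fun n => ?_, ?_⟩
  · rw [constantCoeff_C, coeff_X]; split_ifs
    · exact K.one_mem
    · exact K.zero_mem
  · simp

/-- the base ring maps into the ring -/
noncomputable def phi (k : Subfield L) : k⟦X⟧⟦X⟧ →+* L⟦X⟧⟦X⟧ :=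
  PowerSeries.map (PowerSeries.map k.subtype)

theorem phi_mem (hkK : k ≤ K) (a : k⟦X⟧⟦X⟧) : phi k a ∈ Rr k K := by
  have h : ∀ n, coeff n (constantCoeff (phi k a)) ∈ k := by
    intro n
    rw [← coeff_zero_eq_constantCoeff_apply, phi, coeff_map, coeff_map]
    exact SetLike.coe_mem _
  refine ⟨fun n => hkK (h n), ?_⟩
  rw [← coeff_zero_eq_constantCoeff_apply]
  exact h 0

theorem phi_finite [Module.Finite k L] : (phi k).Finite :=
  finite_map _ (finite_map _ (by
    have : (algebraMap k L).Finite := RingHom.finite_algebraMap.2 inferInstance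
    exact this))

theorem noeth (hkK : k ≤ K) [Module.Finite k L] : IsNoetherianRing (Rr k K) := by
  let ψ : k⟦X⟧⟦X⟧ →+* Rr k K := (phi k).codRestrict _ (phi_mem hkK)
  letI := ψ.toAlgebra
  letI := (phi k).toAlgebra
  have hB : Module.Finite k⟦X⟧⟦X⟧ L⟦X⟧⟦X⟧ := phi_finite
  let ι : Rr k K →ₗ[k⟦X⟧⟦X⟧] L⟦X⟧⟦X⟧ :=
    { toFun := fun r => r.1
      map_add' := fun _ _ => rfl
      map_smul' := fun _ _ => rfl }
  have : Module.Finite k⟦X⟧⟦X⟧ (Rr k K) := Module.Finite.of_injective ι Subtype.val_injective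
  exact IsNoetherianRing.of_finite k⟦X⟧⟦X⟧ _

theorem sub_finite (hkK : k ≤ K) [Module.Finite k L] : (Rr k K).subtype.Finite := by
  let ψ : k⟦X⟧⟦X⟧ →+* Rr k K := (phi k).codRestrict _ (phi_mem hkK)
  have : ((Rr k K).subtype.comp ψ).Finite := phi_finite
  exact RingHom.Finite.of_comp_finite this

theorem locHom (hkK : k ≤ K) [Module.Finite k L] : IsLocalHom (Rr k K).subtype :=
  RingHom.IsIntegral.isLocalHom (sub_finite hkK).to_isIntegral Subtype.val_injective

theorem loc (hkK : k ≤ K) [Module.Finite k L] : IsLocalRing (Rr k K) :=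
  haveI := locHom hkK
  RingHom.domain_isLocalRing (Rr k K).subtype

theorem isUnit_iff (hkK : k ≤ K) [Module.Finite k L] (f : Rr k K) :
    IsUnit f ↔ constantCoeff (constantCoeff f.1) ≠ 0 := by
  haveI := locHom hkK
  rw [← isUnit_map_iff (Rr k K).subtype f, isUnit_iff_constantCoeff, isUnit_iff_constantCoeff,
    isUnit_iff_ne_zero]
  rfl

theorem mem_max (hkK : k ≤ K) [Module.Finite k L] [IsLocalRing (Rr k K)] (f : Rr k K) :
    f ∈ IsLocalRing.maximalIdeal (Rr k K) ↔ constantCoeff (constantCoeff f.1) = 0 := by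
  rw [IsLocalRing.mem_maximalIdeal, mem_nonunits_iff, isUnit_iff hkK, not_not]

/-- the two parameters -/
noncomputable def xy (k K : Subfield L) : Fin 2 → Rr k K := ![⟨X, X_mem⟩, ⟨C X, Y_mem⟩]

theorem range_xy : Set.range (xy k K) = {⟨X, X_mem⟩, ⟨C X, Y_mem⟩} := by
  simp [xy, Matrix.range_cons, Matrix.range_empty, Set.pair_comm]

/-- membership in the parameter ideal -/
theorem mem_I (hkK : k ≤ K) (f : Rr k K) (h0 : constantCoeff (constantCoeff f.1) = 0)
    (h1 : constantCoeff (coeff 1 f.1) ∈ k) (h2 : coeff 1 (constantCoeff f.1) ∈ k) :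
    f ∈ Ideal.span (Set.range (xy k K)) := by
  rw [range_xy, Ideal.mem_span_pair]
  obtain ⟨h, hh⟩ : (X : L⟦X⟧) ∣ constantCoeff f.1 := X_dvd_iff.2 h0
  obtain ⟨w, hw⟩ : (X : L⟦X⟧) ∣ coeff 1 f.1 - C (constantCoeff (coeff 1 f.1)) :=
    X_dvd_iff.2 (by simp)
  obtain ⟨g, hg⟩ : (X : L⟦X⟧⟦X⟧) ^ 2 ∣ f.1 - C (constantCoeff f.1) - X * C (coeff 1 f.1) := by
    rw [X_pow_dvd_iff]
    intro m hm
    interval_cases m
    · simp
    · simp [coeff_one_X, coeff_mul_C, coeff_C]
  have hcoef : ∀ n, coeff n h = coeff (n + 1) (constantCoeff f.1) := by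
    intro n; rw [hh, coeff_succ_X_mul]
  have m1 : C (C (constantCoeff (coeff 1 f.1))) + X * g ∈ Rr k K := by
    refine (Rr k K).add_mem ⟨fun n => ?_, ?_⟩ (X_mul_mem g)
    · rw [constantCoeff_C, coeff_C]; split_ifs
      · exact hkK h1
      · exact K.zero_mem
    · simpa using h1
  have m2 : C h + X * C w ∈ Rr k K := by
    refine (Rr k K).add_mem ⟨fun n => ?_, ?_⟩ (X_mul_mem _)
    · rw [constantCoeff_C, hcoef]; exact f.2.1 _
    · rw [constantCoeff_C, ← coeff_zero_eq_constantCoeff_apply, hcoef]; exact h2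
  refine ⟨⟨_, m1⟩, ⟨_, m2⟩, Subtype.ext ?_⟩
  change (C (C (constantCoeff (coeff 1 f.1))) + X * g) * X + (C h + X * C w) * C X = f.1
  have e1 : (C (constantCoeff f.1) : L⟦X⟧⟦X⟧) = C X * C h := by rw [hh, map_mul]
  have e2 : (C (coeff 1 f.1) : L⟦X⟧⟦X⟧) = C (C (constantCoeff (coeff 1 f.1))) + C X * C w := by
    rw [← map_mul, ← hw, ← map_add]; congr 1; ring
  rw [e1, e2] at hg
  linear_combination -hg

end Pool.Agent.H16Z.FC
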